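import Pool.Agent.W721.CF.NRM

set_option autoImplicit false

/-!
Project CF: two pairs with the same ideal are proportional modulo `q` (helper721).
-/

namespace Pool.Agent.W721.CF

open NumberField Finset Pool.Agent.W4.CF

theorem t_GRP : S_GRP := by
  intro K _ _ ρ A B i h hi u v u' v' q hq huv hG hI
  have hcube : ρ ^ 3 = (A : 𝓞 K) * ρ + (B : 𝓞 K) := h.2.2
  set I := Ideal.span {(q : 𝓞 K), (u : 𝓞 K) - v * ρ} with hIdef
  have m1 : (u : 𝓞 K) - v * ρ ∈ I := Ideal.subset_span (by simp)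
  have m2 : (u' : 𝓞 K) - v' * ρ ∈ I := by
    rw [hI]; exact Ideal.subset_span (by simp)
  have m3 : ((u * v' - u' * v : ℤ) : 𝓞 K) ∈ I := by
    have : ((u * v' - u' * v : ℤ) : 𝓞 K) =
        (v' : 𝓞 K) * ((u : 𝓞 K) - v * ρ) - (v : 𝓞 K) * ((u' : 𝓞 K) - v' * ρ) := by
      push_cast; ring
    rw [this]
    exact I.sub_mem (I.mul_mem_left _ m1) (I.mul_mem_left _ m2)
  rw [hIdef, Ideal.mem_span_pair] at m3
  obtain ⟨α, β, hαβ⟩ := m3
  obtain ⟨x', y', w', hα⟩ := hi.2 α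
  obtain ⟨x, y, w, hβ⟩ := hi.2 β
  have key : (((i : ℤ) * (u * v' - u' * v) - (q * x' + u * x - B * v * w) : ℤ) : 𝓞 K) +
      ((-(q * y' + u * y - v * x - A * v * w) : ℤ) : 𝓞 K) * ρ +
      ((-(q * w' + u * w - v * y) : ℤ) : 𝓞 K) * ρ ^ 2 = 0 := by
    push_cast
    push_cast at hαβ
    linear_combination (-(i : 𝓞 K)) * hαβ + (q : 𝓞 K) * hα + ((u : 𝓞 K) - v * ρ) * hβ -
      (v : 𝓞 K) * w * hcube
  obtain ⟨k0, k1, k2⟩ := indep h _ _ _ key
  have hz : (q : ℤ) ∣ v ^ 2 * (i * (u * v' - u' * v)) := by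
    obtain ⟨g, hg⟩ := hG
    simp only [G] at hg
    refine ⟨v ^ 2 * x' + u * v * y' + u ^ 2 * w' + w * g, ?_⟩
    linear_combination v ^ 2 * k0 + u * v * k1 + u ^ 2 * k2 + w * hg
  have hc : IsCoprime (q : ℤ) (v ^ 2) := by
    refine IsCoprime.pow_right ?_
    have h3 : IsCoprime (G A B u v) v := by
      have h4 : IsCoprime (u ^ 3) v := huv.pow_left
      have h5 : G A B u v = u ^ 3 + v * (-(A * u * v + B * v ^ 2)) := by
        simp only [G]; ring
      rw [h5]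
      exact IsCoprime.add_mul_left_left h4 _
    exact h3.of_isCoprime_of_dvd_left hG
  exact hc.dvd_of_dvd_mul_left hz

end Pool.Agent.W721.CF
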