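import Pool.Agent.W4.CF.Stms

set_option autoImplicit false

/-!
Project CF: Minkowski's theorem for an ideal by the pigeonhole principle (helper721).
-/

namespace Pool.Agent.W721.CF

open NumberField Finset Pool.Agent.W4.CF

theorem t_MINK : S_MINK := by
  intro K _ _
  classical
  let ω := RingOfIntegers.basis K
  let S : ℝ := ∑ σ : K →+* ℂ, ∑ i, ‖σ ((ω i : 𝓞 K) : K)‖
  have hS : 0 ≤ S := Finset.sum_nonneg fun σ _ => Finset.sum_nonneg fun i _ => norm_nonneg _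
  refine ⟨1 + S, by linarith, ?_⟩
  intro I hI
  set n := Ideal.absNorm I with hn
  have hn0 : n ≠ 0 := by rwa [hn, Ne, Ideal.absNorm_eq_zero_iff]
  set d := Module.finrank ℚ K with hd
  have hd0 : 0 < d := Module.finrank_pos
  have hcard : Fintype.card (Module.Free.ChooseBasisIndex ℤ (𝓞 K)) = d := by
    rw [← Module.finrank_eq_card_chooseBasisIndex, RingOfIntegers.rank]
  set x : ℝ := (n : ℝ) ^ ((1 : ℝ) / (d : ℝ)) with hx
  have hx0 : 0 ≤ x := by positivity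
  set H := ⌊x⌋₊ with hH
  have hHx : (H : ℝ) ≤ x := Nat.floor_le hx0
  have h1 : n < (H + 1) ^ d := by
    have h2 : (n : ℝ) = x ^ d := by
      rw [hx, ← Real.rpow_natCast, ← Real.rpow_mul (by positivity), one_div,
        inv_mul_cancel₀ (by positivity), Real.rpow_one]
    have h3 : x < (H : ℝ) + 1 := Nat.lt_floor_add_one x
    have h4 : x ^ d < ((H : ℝ) + 1) ^ d := pow_lt_pow_left₀ h3 hx0 hd0.ne'
    rw [← h2] at h4
    exact_mod_cast h4
  have hfin : Finite (𝓞 K ⧸ I) := Ideal.finiteQuotientOfFreeOfNeBot I hI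
  have : Fintype (𝓞 K ⧸ I) := Fintype.ofFinite _
  have hq : Fintype.card (𝓞 K ⧸ I) = n := by
    rw [← Nat.card_eq_fintype_card, hn, Ideal.absNorm_apply, Submodule.cardQuot_apply]
  obtain ⟨a, b, hab, hf⟩ := Fintype.exists_ne_map_eq_of_card_lt
    (fun a : Module.Free.ChooseBasisIndex ℤ (𝓞 K) → Fin (H + 1) =>
      Ideal.Quotient.mk I (∑ i, ((a i : ℕ) : ℤ) • ω i)) (by
      rw [hq, Fintype.card_fun, Fintype.card_fin, hcard]; exact h1)
  have hmem := Ideal.Quotient.eq.mp hf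
  have hδ : (∑ i, ((a i : ℕ) : ℤ) • ω i) - (∑ i, ((b i : ℕ) : ℤ) • ω i) =
      ∑ i, (((a i : ℕ) : ℤ) - ((b i : ℕ) : ℤ)) • ω i := by
    rw [← Finset.sum_sub_distrib]
    exact Finset.sum_congr rfl fun i _ => by rw [sub_smul]
  rw [hδ] at hmem
  refine ⟨_, hmem, ?_, ?_⟩
  · intro h0
    apply hab
    funext i
    have h5 := (Fintype.linearIndependent_iff.mp ω.linearIndependent) _ h0 i
    apply Fin.ext
    omega
  · intro σ
    have h6 : σ ((∑ i, (((a i : ℕ) : ℤ) - ((b i : ℕ) : ℤ)) • ω i : 𝓞 K) : K) =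
        ∑ i, ((((a i : ℕ) : ℤ) - ((b i : ℕ) : ℤ) : ℤ) : ℂ) * σ ((ω i : 𝓞 K) : K) := by
      change σ (algebraMap (𝓞 K) K (∑ i, (((a i : ℕ) : ℤ) - ((b i : ℕ) : ℤ)) • ω i)) = _
      rw [map_sum, map_sum]
      refine Finset.sum_congr rfl fun i _ => ?_
      rw [zsmul_eq_mul, map_mul, map_mul, map_intCast, map_intCast]
    rw [h6]
    have hb : ∀ i, ‖((((a i : ℕ) : ℤ) - ((b i : ℕ) : ℤ) : ℤ) : ℂ)‖ ≤ H := by
      intro i
      rw [Complex.norm_intCast]
      have ha1 := (a i).2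
      have hb1 := (b i).2
      have : |(((a i : ℕ) : ℤ) - ((b i : ℕ) : ℤ))| ≤ (H : ℤ) := by
        rw [abs_le]
        constructor <;> omega
      exact_mod_cast this
    calc ‖∑ i, ((((a i : ℕ) : ℤ) - ((b i : ℕ) : ℤ) : ℤ) : ℂ) * σ ((ω i : 𝓞 K) : K)‖
        ≤ ∑ i, (H : ℝ) * ‖σ ((ω i : 𝓞 K) : K)‖ := by
          refine (norm_sum_le _ _).trans (Finset.sum_le_sum fun i _ => ?_)
          rw [norm_mul]
          exact mul_le_mul_of_nonneg_right (hb i) (norm_nonneg _)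
      _ = (H : ℝ) * ∑ i, ‖σ ((ω i : 𝓞 K) : K)‖ := by rw [Finset.mul_sum]
      _ ≤ x * S := by
          refine mul_le_mul hHx ?_ (Finset.sum_nonneg fun i _ => norm_nonneg _) hx0
          exact Finset.single_le_sum (f := fun σ : K →+* ℂ => ∑ i, ‖σ ((ω i : 𝓞 K) : K)‖)
            (fun σ _ => Finset.sum_nonneg fun i _ => norm_nonneg _) (Finset.mem_univ σ)
      _ ≤ (1 + S) * x := by nlinarith

end Pool.Agent.W721.CF
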