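import Pool.Agent.W4.CF.Stms

set_option autoImplicit false

/-!
Project CF: basic facts on a cubic field generated by an integer with minimal polynomial
`X³ - AX - B` (helper721).
-/

namespace Pool.Agent.W721.CF

open NumberField Finset Pool.Agent.W4.CF

section

variable {K : Type} [Field K] [NumberField K] {ρ : 𝓞 K} {A B : ℤ}

theorem cube_eq (h : Cub K ρ A B) : (ρ : K) ^ 3 = (A : K) * (ρ : K) + (B : K) := by
  have h1 := congrArg (algebraMap (𝓞 K) K) h.2.2
  simpa using h1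

theorem minpoly_deg (h : Cub K ρ A B) : (minpoly ℚ (ρ : K)).natDegree = 3 := by
  have hint : IsIntegral ℚ (ρ : K) := IsIntegral.of_finite ℚ _
  have h1 := minpoly.degree_dvd hint
  rw [h.1] at h1
  rcases (Nat.dvd_prime Nat.prime_three).mp h1 with h2 | h2
  · exfalso
    rw [minpoly.natDegree_eq_one_iff] at h2
    obtain ⟨r, hr⟩ := h2
    exact h.2.1 r hr.symm
  · exact h2

/-- `1, ρ, ρ²` are independent -/
theorem linInd (h : Cub K ρ A B) : LinearIndependent ℚ (fun i : Fin 3 => (ρ : K) ^ (i : ℕ)) := by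
  have hint : IsIntegral ℚ (ρ : K) := IsIntegral.of_finite ℚ _
  have h1 := linearIndependent_pow (K := ℚ) (ρ : K)
  rw [Fintype.linearIndependent_iff] at h1 ⊢
  intro g hg i
  have hd := minpoly_deg h
  have h2 := h1 (fun j => g (Fin.cast hd j)) (by
    rw [← hg]
    exact Fintype.sum_equiv (finCongr hd) _ _ fun j => rfl) (Fin.cast hd.symm i)
  simpa using h2

/-- the basis `1, ρ, ρ²` -/
noncomputable def bas (h : Cub K ρ A B) : Module.Basis (Fin 3) ℚ K :=
  basisOfLinearIndependentOfCardEqFinrank (linInd h) (by rw [h.1, Fintype.card_fin])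

theorem bas_apply (h : Cub K ρ A B) (i : Fin 3) : bas h i = (ρ : K) ^ (i : ℕ) := by
  simp [bas]

theorem expand (h : Cub K ρ A B) (α : K) : α = (((bas h).repr α 0 : ℚ) : K) +
    (((bas h).repr α 1 : ℚ) : K) * (ρ : K) + (((bas h).repr α 2 : ℚ) : K) * (ρ : K) ^ 2 := by
  conv_lhs => rw [← (bas h).sum_repr α]
  rw [Fin.sum_univ_three, bas_apply, bas_apply, bas_apply]
  simp [Algebra.smul_def]

theorem repr_eq (h : Cub K ρ A B) (x y w : ℚ) :
    (bas h).repr ((x : K) + (y : K) * (ρ : K) + (w : K) * (ρ : K) ^ 2) =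
      Finsupp.equivFunOnFinite.symm ![x, y, w] := by
  have h1 : (x : K) + (y : K) * (ρ : K) + (w : K) * (ρ : K) ^ 2 =
      ∑ i, (![x, y, w] : Fin 3 → ℚ) i • bas h i := by
    rw [Fin.sum_univ_three, bas_apply, bas_apply, bas_apply]
    simp [Algebra.smul_def]
  rw [h1, map_sum]
  ext j
  simp only [map_smul, Module.Basis.repr_self, Finsupp.coe_finsetSum, Finset.sum_apply,
    Finsupp.smul_single, smul_eq_mul, mul_one, Finsupp.single_apply]
  simp

theorem repr0 (h : Cub K ρ A B) (x y w : ℚ) :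
    (bas h).repr ((x : K) + (y : K) * (ρ : K) + (w : K) * (ρ : K) ^ 2) 0 = x := by
  rw [repr_eq]; rfl

theorem repr1 (h : Cub K ρ A B) (x y w : ℚ) :
    (bas h).repr ((x : K) + (y : K) * (ρ : K) + (w : K) * (ρ : K) ^ 2) 1 = y := by
  rw [repr_eq]; rfl

theorem repr2 (h : Cub K ρ A B) (x y w : ℚ) :
    (bas h).repr ((x : K) + (y : K) * (ρ : K) + (w : K) * (ρ : K) ^ 2) 2 = w := by
  rw [repr_eq]; rfl

/-- independence over the integers -/
theorem indep (h : Cub K ρ A B) (x y w : ℤ)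
    (h0 : (x : 𝓞 K) + y * ρ + w * ρ ^ 2 = 0) : x = 0 ∧ y = 0 ∧ w = 0 := by
  have h1 := congrArg (algebraMap (𝓞 K) K) h0
  have h2 : ((x : ℚ) : K) + ((y : ℚ) : K) * (ρ : K) + ((w : ℚ) : K) * (ρ : K) ^ 2 = 0 := by
    simpa using h1
  have e0 := repr0 h x y w
  have e1 := repr1 h x y w
  have e2 := repr2 h x y w
  have e00 : (bas h).repr 0 = 0 := map_zero _
  rw [h2, e00, Finsupp.zero_apply] at e0 e1 e2
  refine ⟨?_, ?_, ?_⟩
  · exact_mod_cast e0.symm
  · exact_mod_cast e1.symm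
  · exact_mod_cast e2.symm

end

theorem norm_rat {K : Type} [Field K] [NumberField K] {ρ : 𝓞 K} {A B : ℤ} (h : Cub K ρ A B)
    (u v : ℤ) : Algebra.norm ℚ ((u : K) - v * (ρ : K)) = G A B u v := by
  have hc := cube_eq h
  rw [Algebra.norm_eq_matrix_det (bas h)]
  have hM : Algebra.leftMulMatrix (bas h) ((u : K) - v * (ρ : K)) =
      !![(u : ℚ), 0, -(v * B); -v, u, -(v * A); 0, -v, u] := by
    ext i j
    rw [Algebra.leftMulMatrix_eq_repr_mul, bas_apply]
    have k0 : ((u : K) - v * (ρ : K)) * (ρ : K) ^ 0 = ((u : ℚ) : K) + ((-v : ℚ) : K) * (ρ : K) +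
        ((0 : ℚ) : K) * (ρ : K) ^ 2 := by
      push_cast; ring
    have k1 : ((u : K) - v * (ρ : K)) * (ρ : K) ^ 1 = ((0 : ℚ) : K) + ((u : ℚ) : K) * (ρ : K) +
        ((-v : ℚ) : K) * (ρ : K) ^ 2 := by
      push_cast; ring
    have k2 : ((u : K) - v * (ρ : K)) * (ρ : K) ^ 2 = ((-(v * B) : ℚ) : K) +
        ((-(v * A) : ℚ) : K) * (ρ : K) + ((u : ℚ) : K) * (ρ : K) ^ 2 := by
      push_cast
      linear_combination (-(v : K)) * hc
    fin_cases j
    · change (bas h).repr (((u : K) - v * (ρ : K)) * (ρ : K) ^ 0) i = _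
      rw [k0]
      fin_cases i
      · exact repr0 h _ _ _
      · exact repr1 h _ _ _
      · exact repr2 h _ _ _
    · change (bas h).repr (((u : K) - v * (ρ : K)) * (ρ : K) ^ 1) i = _
      rw [k1]
      fin_cases i
      · exact repr0 h _ _ _
      · exact repr1 h _ _ _
      · exact repr2 h _ _ _
    · change (bas h).repr (((u : K) - v * (ρ : K)) * (ρ : K) ^ 2) i = _
      rw [k2]
      fin_cases i
      · exact repr0 h _ _ _
      · exact repr1 h _ _ _
      · exact repr2 h _ _ _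
  rw [hM, Matrix.det_fin_three]
  simp [G]
  ring

theorem t_NRM : S_NRM := by
  intro K _ _ ρ A B h u v
  have h1 := norm_rat h u v
  have h2 : ((Algebra.norm ℤ ((u : 𝓞 K) - v * ρ) : ℤ) : ℚ) = (G A B u v : ℚ) := by
    rw [← h1, Algebra.coe_norm_int]
    simp
  exact_mod_cast h2

theorem t_LIN : S_LIN := by
  intro K _ _ ρ A B h
  refine ⟨(bas h).coord 2, ?_, ?_⟩
  · intro h0
    have h1 := congrArg (fun L => L (bas h 2)) h0
    simp at h1
  · intro u v
    have h1 := repr2 h u (-v) 0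
    rw [Module.Basis.coord_apply]
    rw [← h1]
    congr 2
    push_cast
    ring

theorem t_ROOTS : S_ROOTS := by
  intro K _ _ ρ A B h
  have hcard : Fintype.card (K →ₐ[ℚ] ℂ) = 3 := by
    rw [AlgHom.card, h.1]
  let e : Fin 3 ≃ (K →ₐ[ℚ] ℂ) := (Fintype.equivFinOfCardEq hcard).symm
  refine ⟨fun j => e j (ρ : K), ?_, ?_⟩
  · intro j l hjl
    apply e.injective
    apply AlgHom.ext
    intro α
    rw [expand h α]
    simp only [map_add, map_mul, map_pow, map_ratCast]
    have hjl' : e j (ρ : K) = e l (ρ : K) := hjl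
    rw [hjl']
  · intro u v
    have h1 := Algebra.norm_eq_prod_embeddings ℚ ℂ ((u : K) - v * (ρ : K))
    rw [norm_rat h] at h1
    rw [Fintype.prod_equiv e (fun j => ((u : ℂ) - v * e j (ρ : K)))
      (fun σ => σ ((u : K) - v * (ρ : K))) (fun j => by simp), ← h1]
    simp

theorem t_IDX : S_IDX := by
  intro K _ _ ρ A B h
  classical
  let ω := RingOfIntegers.basis K
  let c : Module.Free.ChooseBasisIndex ℤ (𝓞 K) → Fin 3 → ℚ :=
    fun j k => (bas h).repr ((ω j : 𝓞 K) : K) k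
  let i : ℕ := ∏ j, ∏ k, (c j k).den
  have hi : 1 ≤ i := Nat.one_le_iff_ne_zero.mpr
    (Finset.prod_ne_zero_iff.mpr fun j _ => Finset.prod_ne_zero_iff.mpr fun k _ => (c j k).den_nz)
  have hdiv : ∀ j k, ∃ m : ℤ, (i : ℚ) * c j k = m := by
    intro j k
    have h1 : (c j k).den ∣ i := by
      refine (Finset.dvd_prod_of_mem (fun k => (c j k).den) (Finset.mem_univ k)).trans ?_
      exact Finset.dvd_prod_of_mem (fun j => ∏ k, (c j k).den) (Finset.mem_univ j)
    obtain ⟨q, hq⟩ := h1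
    refine ⟨q * (c j k).num, ?_⟩
    rw [hq]
    push_cast
    have h2 := Rat.mul_den_eq_num (c j k)
    rw [← h2]
    ring
  choose m hm using hdiv
  refine ⟨i, hi, fun α => ?_⟩
  refine ⟨∑ j, ω.repr α j * m j 0, ∑ j, ω.repr α j * m j 1, ∑ j, ω.repr α j * m j 2, ?_⟩
  have hω : ∀ j, (i : 𝓞 K) * ω j = m j 0 + m j 1 * ρ + m j 2 * ρ ^ 2 := by
    intro j
    apply RingOfIntegers.coe_injective
    have h3 := expand h ((ω j : 𝓞 K) : K)
    have h4 : ∀ k, ((m j k : ℤ) : K) = (i : K) * (((bas h).repr ((ω j : 𝓞 K) : K) k : ℚ) : K) := by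
      intro k
      have h5 : ((m j k : ℚ) : K) = ((i : ℚ) * c j k : ℚ) := by rw [hm]
      push_cast at h5
      exact h5
    simp only [map_add, map_mul, map_pow, map_natCast, map_intCast]
    rw [h4 0, h4 1, h4 2]
    linear_combination (i : K) * h3
  conv_lhs => rw [← ω.sum_repr α, Finset.mul_sum]
  rw [Int.cast_sum, Int.cast_sum, Int.cast_sum, Finset.sum_mul, Finset.sum_mul,
    ← Finset.sum_add_distrib, ← Finset.sum_add_distrib]
  refine Finset.sum_congr rfl fun j _ => ?_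
  rw [zsmul_eq_mul]
  push_cast
  linear_combination ((ω.repr α j : ℤ) : 𝓞 K) * hω j

end Pool.Agent.W721.CF
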